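import Pool.Agent.Q34.GB

set_option autoImplicit false

namespace Pool.Agent.Results.MP_fc29f1_nt.FailsAtSeven

open Pool.Agent.Q34

/-- The assertion of Q1 for the prime `p`: (a) if `p = A^2 + 3 B^2` with `3 ∣ A - 1`, then
`S_1, S_2, S_3, (p/5) S_4, (-1/p) S_5` are all congruent to `2A - p/(2A)` modulo `p^2`;
(b) if `p ≡ 2 (mod 3)`, then all five sums are congruent to `0` modulo `p`. -/
def Posed (p : ℕ) : Prop :=
  (∀ A B : ℤ, (p : ℤ) = A ^ 2 + 3 * B ^ 2 → 3 ∣ A - 1 →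
    Cong p 2 (hs (-1/2) (-1/3) (-3) p) (2 * A - p / (2 * A)) ∧
    Cong p 2 (hs (-1/2) (-1/3) (-1/27) p) (2 * A - p / (2 * A)) ∧
    Cong p 2 (hs (-1/2) (-2/3) (-1/4) p) (2 * A - p / (2 * A)) ∧
    Cong p 2 (jacobiSym p 5 * hs (-1/2) (-1/3) (1/5) p) (2 * A - p / (2 * A)) ∧
    Cong p 2 (jacobiSym (-1) p * hs (-1/2) (-1/3) 2 p) (2 * A - p / (2 * A))) ∧
  (p % 3 = 2 →
    Cong p 1 (hs (-1/2) (-1/3) (-3) p) 0 ∧ Cong p 1 (hs (-1/2) (-1/3) (-1/27) p) 0 ∧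
    Cong p 1 (hs (-1/2) (-2/3) (-1/4) p) 0 ∧ Cong p 1 (hs (-1/2) (-1/3) (1/5) p) 0 ∧
    Cong p 1 (hs (-1/2) (-1/3) 2 p) 0)

/-- The conjunction of Q1 is false: for `p = 7 = (-2)^2 + 3 * 1^2` the sum `S_2` is not congruent
to `2A - p/(2A)` modulo `p^2`. -/
theorem result : ¬ ∀ p : ℕ, p.Prime → 5 < p → Posed p := by
  intro h
  have h7 := ((h 7 (by norm_num) (by norm_num)).1 (-2) 1 (by norm_num) (by norm_num)).2.1
  refine not_cong (by norm_num) ?_ h7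
  rw [← (st_spec _ _ _ _).2]
  decide +kernel

end Pool.Agent.Results.MP_fc29f1_nt.FailsAtSeven
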